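import Pool.Agent.Helper51.NP.B
import Pool.Agent.Helper51.NP.F0

/-!
# Block F1: one good end point (owner: helper76)

`n = κ / (l E) ≥ C / l` as `E ≤ C l` and `l` is small.  In `Pack.low` the points with
`tr > Y = K L ^ 2 / l` contribute at most `1 / (4 C)` (`Pack.z1`, `l C E (n + C / l) ≤ 2 C κ`, and
`sum_slab` with `δ = 1 / (2 C L)`), the others number at most `K L ^ (2 d)` (`sum_slab` with
`δ = 1 / (l Y)`).
-/

set_option autoImplicit false

namespace Pool.Agent.Helper76.NP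

open MeasureTheory ProbabilityTheory Filter Pool.Agent.Helper79.GR Pool.Agent.Helper79.GQ
open Pool.Agent.Helper51.NP

variable {Ω : Type*} [MeasurableSpace Ω] {P : Measure Ω} {d : ℕ} {X : Edge d → Ω → ℝ}
  {ν : Measure ℝ} {a b s C : ℝ} {v : F d} {h : F d →L[ℝ] ℝ}

/-- the numbers -/
theorem numbers (d : ℕ) (C K₀ : ℝ) : ∃ L₀ : ℕ, ∀ L : ℕ, L₀ ≤ L → 1 ≤ L ∧
    C * (Real.exp (-(L : ℝ)) * (K₀ * (2 * C * L) ^ d)) ≤ 1 / 4 ∧ C ^ 3 * (1 / 2 : ℝ) ^ L ≤ 1 ∧
    2 * C ^ 2 * (1 / 2 : ℝ) ^ L ≤ 1 := by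
  have h1 : Tendsto (fun L : ℕ => C * (Real.exp (-(L : ℝ)) * (K₀ * (2 * C * L) ^ d))) atTop
      (nhds 0) := by
    have h2 := (Real.tendsto_pow_mul_exp_neg_atTop_nhds_zero d).comp
      (tendsto_natCast_atTop_atTop (R := ℝ))
    have h3 := h2.const_mul (C * K₀ * (2 * C) ^ d)
    rw [mul_zero] at h3
    refine h3.congr fun L => ?_
    simp only [Function.comp]
    rw [mul_pow (2 * C) (L : ℝ) d]
    ring
  have h4 : Tendsto (fun L : ℕ => (1 / 2 : ℝ) ^ L) atTop (nhds 0) :=
    tendsto_pow_atTop_nhds_zero_of_lt_one (by norm_num) (by norm_num)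
  have h5 := h4.const_mul (C ^ 3)
  have h6 := h4.const_mul (2 * C ^ 2)
  rw [mul_zero] at h5 h6
  have e1 := h1.eventually (gt_mem_nhds (show (0 : ℝ) < 1 / 4 by norm_num))
  have e2 := h5.eventually (gt_mem_nhds (show (0 : ℝ) < 1 by norm_num))
  have e3 := h6.eventually (gt_mem_nhds (show (0 : ℝ) < 1 by norm_num))
  obtain ⟨L₀, hL⟩ := eventually_atTop.1 ((eventually_ge_atTop 1).and (e1.and (e2.and e3)))
  exact ⟨L₀, fun L hLL => ⟨(hL L hLL).1, (hL L hLL).2.1.le, (hL L hLL).2.2.1.le,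
    (hL L hLL).2.2.2.le⟩⟩

theorem good_point (hE : Env P X ν a b) (hv : h v = 1) (hC : 1 ≤ C) :
    ∃ K : ℝ, 1 ≤ K ∧ ∃ L₀ : ℕ, ∀ L : ℕ, L₀ ≤ L → ∀ (l D E : ℝ) (g : F d →L[ℝ] ℝ),
      Pack P X v h C L l D E g → ∀ κ : ℝ, 1 ≤ κ → κ ≤ L → ∃ q : V d,
        κ / (2 * (l * E)) ≤ h (rv q) ∧ h (rv q) ≤ 2 * κ / (l * E) ∧
        tr v h (rv q) ≤ K * L ^ 2 / l ∧
        Real.exp (κ * D / E) - 1 / 4 ≤
          K * L ^ (2 * d) * (Z P X l 0 q * Real.exp (l * g (rv q))) := by
  obtain ⟨K₀, hK₀, hs⟩ := sum_slab v h hv C (by linarith)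
  obtain ⟨L₀, hL₀⟩ := numbers d C K₀
  set K₁ : ℝ := 2 * C * (C + 2) with hK₁
  have hK₁1 : 1 ≤ K₁ := by nlinarith
  set K : ℝ := max K₁ (2 * C * Real.exp 1 * K₀ * K₁ ^ d) with hKdef
  have hKK₁ : K₁ ≤ K := le_max_left _ _
  have hKK : 2 * C * Real.exp 1 * K₀ * K₁ ^ d ≤ K := le_max_right _ _
  refine ⟨K, hK₁1.trans hKK₁, L₀, fun L hL l D E g pk κ hκ hκL => ?_⟩
  obtain ⟨hL1, hn1, hn2, hn3⟩ := hL₀ L hL
  have hLr : (1 : ℝ) ≤ L := by exact_mod_cast hL1
  have hl := pk.lpos
  have hl1 : l ≤ 1 := pk.lup.trans (pow_le_one₀ (by norm_num) (by norm_num))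
  have hC0 : 0 < C := by linarith
  have hK0 : 0 < K := by linarith
  have hE0 : 0 < E := by
    have h1 := pk.DE
    have h2 := pk.D0
    have h3 : 0 < l ^ (2 * d + 2) := pow_pos hl _
    linarith
  have hlE : 0 < l * E := mul_pos hl hE0
  set n : ℝ := κ / (l * E) with hn
  have hlEn : l * E * n = κ := by
    rw [hn]
    field_simp
  -- `2 C / l ≤ n`
  have hCn : 2 * (C / l) ≤ n := by
    rw [hn, le_div_iff₀ hlE]
    have h1 : 2 * (C / l) * (l * E) = 2 * C * E := by
      field_simp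
    rw [h1]
    have h2 : 2 * C * E ≤ 2 * C * (C * l) := mul_le_mul_of_nonneg_left pk.EC (by linarith)
    have h3 : 2 * C * (C * l) ≤ 2 * C ^ 2 * (1 / 2 : ℝ) ^ L := by
      have := mul_le_mul_of_nonneg_left pk.lup (show 0 ≤ 2 * C ^ 2 by positivity)
      linarith
    linarith
  have hCl : 0 < C / l := div_pos hC0 hl
  have hn0 : 0 < n := by linarith
  set Y : ℝ := K₁ * L ^ 2 / l with hY
  set R : ℝ := Real.exp (κ * D / E) - 1 / 4 with hR
  have hR0 : 3 / 4 ≤ R := by
    have h1 : (0 : ℝ) ≤ κ * D / E := div_nonneg (mul_nonneg (by linarith) pk.D0) hE0.le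
    have h2 := Real.one_le_exp h1
    linarith
  have hlow := pk.low n (by linarith)
  have hexp : l * n * D = κ * D / E := by
    rw [hn]
    field_simp
  rw [hexp] at hlow
  -- the numbers of the transversal scales
  set δ : ℝ := 1 / (2 * C * L) with hδ
  set δ' : ℝ := 1 / (K₁ * L ^ 2) with hδ'
  have hδ0 : 0 < δ := by positivity
  have hδ1 : δ ≤ 1 := by
    rw [hδ, div_le_one (by positivity)]
    nlinarith
  have hδ'0 : 0 < δ' := by
    rw [hδ']
    have : 0 < K₁ := by linarith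
    positivity
  have hδ'1 : δ' ≤ 1 := by
    have : 0 < K₁ := by linarith
    rw [hδ', div_le_one (by positivity)]
    nlinarith [one_le_pow₀ hLr (n := 2)]
  by_contra hcon
  push Not at hcon
  -- the values
  set w : ℕ := ⌈1 / l⌉₊ with hw
  have hval : ∀ q : {q : V d // |h (rv (w • q)) - n| ≤ C / l},
      ENNReal.ofReal (Z P X l 0 (w • q.1) * Real.exp (l * g (rv (w • q.1)))) ≤
      ENNReal.ofReal (R / (K * L ^ (2 * d)) * Real.exp 1) *
        ENNReal.ofReal (Real.exp (-(l * (δ' * tr v h (rv (w • q.1)))))) +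
      ENNReal.ofReal (Real.exp (-(L : ℝ))) *
        ENNReal.ofReal (Real.exp (-(l * (δ * tr v h (rv (w • q.1)))))) := by
    intro q
    have hq := abs_le.1 q.2
    set p : V d := w • q.1 with hp
    have hKL : 0 < K * (L : ℝ) ^ (2 * d) := by positivity
    rcases le_or_gt (tr v h (rv p)) Y with ht | ht
    · -- near
      have h1 : K * L ^ (2 * d) * (Z P X l 0 p * Real.exp (l * g (rv p))) < R := by
        refine hcon p ?_ ?_ ?_
        · have : κ / (2 * (l * E)) = n / 2 := by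
            rw [hn]
            field_simp
          rw [this]
          linarith
        · have : 2 * κ / (l * E) = 2 * n := by
            rw [hn]
            ring
          rw [this]
          linarith
        · refine ht.trans ?_
          rw [hY]
          exact div_le_div_of_nonneg_right (mul_le_mul_of_nonneg_right hKK₁ (by positivity)) hl.le
      have h2 : Z P X l 0 p * Real.exp (l * g (rv p)) ≤ R / (K * L ^ (2 * d)) := by
        rw [le_div_iff₀ hKL]
        linarith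
      have h3 : Real.exp (-1) ≤ Real.exp (-(l * (δ' * tr v h (rv p)))) := by
        refine Real.exp_le_exp.2 (neg_le_neg ?_)
        have h4 : l * (δ' * tr v h (rv p)) ≤ l * (δ' * Y) :=
          mul_le_mul_of_nonneg_left (mul_le_mul_of_nonneg_left ht hδ'0.le) hl.le
        have h5 : l * (δ' * Y) = 1 := by
          rw [hδ', hY]
          have : 0 < K₁ := by linarith
          field_simp
        linarith
      refine le_trans ?_ le_self_add
      rw [← ENNReal.ofReal_mul (by positivity)]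
      refine ENNReal.ofReal_le_ofReal (h2.trans ?_)
      have h6 : R / (K * L ^ (2 * d)) = R / (K * L ^ (2 * d)) * Real.exp 1 * Real.exp (-1) := by
        rw [mul_assoc, ← Real.exp_add]
        simp
      have h7 : 0 ≤ R / (K * L ^ (2 * d)) * Real.exp 1 := by positivity
      exact h6.le.trans (mul_le_mul_of_nonneg_left h3 h7)
    · -- far
      refine le_trans ?_ le_add_self
      rw [← ENNReal.ofReal_mul (by positivity), ← Real.exp_add]
      refine ENNReal.ofReal_le_ofReal ((pk.z1 p).trans (Real.exp_le_exp.2 ?_))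
      have hmax : max (h (rv p)) 0 ≤ n + C / l := by
        refine max_le ?_ (by linarith)
        linarith
      have h1 : C * E * max (h (rv p)) 0 ≤ C * E * (n + C / l) :=
        mul_le_mul_of_nonneg_left hmax (by positivity)
      have h2 : l * (C * E * (n + C / l)) ≤ (C + 1) * L := by
        have h3 : l * (C * E * (n + C / l)) = C * (l * E * n) + C ^ 2 * E := by
          field_simp
        rw [h3, hlEn]
        have h4 : C ^ 2 * E ≤ C ^ 2 * (C * l) := mul_le_mul_of_nonneg_left pk.EC (by positivity)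
        have h5 : C ^ 2 * (C * l) ≤ C ^ 3 * (1 / 2 : ℝ) ^ L := by
          have := mul_le_mul_of_nonneg_left pk.lup (show 0 ≤ C ^ 3 by positivity)
          linarith
        have h6 : C * κ ≤ C * L := mul_le_mul_of_nonneg_left hκL hC0.le
        linarith
      have h7 : (C + 2) * L ≤ l * (δ * tr v h (rv p)) := by
        have h8 : l * (δ * Y) = (C + 2) * L := by
          rw [hδ, hY, hK₁]
          field_simp
        have h9 : l * (δ * Y) ≤ l * (δ * tr v h (rv p)) :=
          mul_le_mul_of_nonneg_left (mul_le_mul_of_nonneg_left ht.le hδ0.le) hl.le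
        linarith
      have h10 : l * (tr v h (rv p) / (C * L)) = 2 * (l * (δ * tr v h (rv p))) := by
        rw [hδ]
        field_simp
      have h11 : l * (C * E * max (h (rv p)) 0) ≤ l * (C * E * (n + C / l)) :=
        mul_le_mul_of_nonneg_left h1 hl.le
      have h12 : l * (C * E * max (h (rv p)) 0 - tr v h (rv p) / (C * L)) =
          l * (C * E * max (h (rv p)) 0) - l * (tr v h (rv p) / (C * L)) := by ring
      rw [h12, h10]
      linarith
  have hsum := ENNReal.tsum_le_tsum hval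
  rw [ENNReal.tsum_add, ENNReal.tsum_mul_left, ENNReal.tsum_mul_left] at hsum
  have hs1 := hs l δ' n hl hl1 hδ'0 hδ'1
  have hs2 := hs l δ n hl hl1 hδ0 hδ1
  have hfin : ENNReal.ofReal (Real.exp (κ * D / E)) ≤ ENNReal.ofReal
      (C * (R / (K * L ^ (2 * d)) * Real.exp 1 * (K₀ / δ' ^ d) +
        Real.exp (-(L : ℝ)) * (K₀ / δ ^ d))) := by
    refine hlow.trans ?_
    have e1 : ENNReal.ofReal (R / (K * L ^ (2 * d)) * Real.exp 1 * (K₀ / δ' ^ d)) =
        ENNReal.ofReal (R / (K * L ^ (2 * d)) * Real.exp 1) * ENNReal.ofReal (K₀ / δ' ^ d) :=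
      ENNReal.ofReal_mul (by positivity)
    have e2 : ENNReal.ofReal (Real.exp (-(L : ℝ)) * (K₀ / δ ^ d)) =
        ENNReal.ofReal (Real.exp (-(L : ℝ))) * ENNReal.ofReal (K₀ / δ ^ d) :=
      ENNReal.ofReal_mul (by positivity)
    rw [ENNReal.ofReal_mul hC0.le, ENNReal.ofReal_add (by positivity) (by positivity), e1, e2]
    refine mul_le_mul_right (hsum.trans ?_) _
    exact add_le_add (mul_le_mul_right hs1 _) (mul_le_mul_right hs2 _)
  have hpos : 0 ≤ C * (R / (K * L ^ (2 * d)) * Real.exp 1 * (K₀ / δ' ^ d) +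
        Real.exp (-(L : ℝ)) * (K₀ / δ ^ d)) := by positivity
  have hreal := (ENNReal.ofReal_le_ofReal_iff hpos).1 hfin
  -- the two parts
  have hp1 : C * (R / (K * L ^ (2 * d)) * Real.exp 1 * (K₀ / δ' ^ d)) ≤ R / 2 := by
    have hLp : 0 < (L : ℝ) ^ (2 * d) := by positivity
    have h1 : K₀ / δ' ^ d = K₀ * (K₁ ^ d * L ^ (2 * d)) := by
      rw [hδ', one_div, inv_pow, div_inv_eq_mul, mul_pow, pow_mul]
    rw [h1]
    have h2 : C * (R / (K * L ^ (2 * d)) * Real.exp 1 * (K₀ * (K₁ ^ d * L ^ (2 * d)))) =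
        R / 2 * (2 * C * Real.exp 1 * K₀ * K₁ ^ d / K) := by
      field_simp
    rw [h2]
    have h3 : 2 * C * Real.exp 1 * K₀ * K₁ ^ d / K ≤ 1 := (div_le_one hK0).2 hKK
    nlinarith
  have hp2 : C * (Real.exp (-(L : ℝ)) * (K₀ / δ ^ d)) ≤ 1 / 4 := by
    have h1 : K₀ / δ ^ d = K₀ * (2 * C * L) ^ d := by
      rw [hδ, one_div, inv_pow, div_inv_eq_mul]
    rw [h1]
    exact hn1
  rw [mul_add] at hreal
  linarith

end Pool.Agent.Helper76.NP
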